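import Mathlib
import Pool.Agent.R488.TM

/-!
# The ratios of consecutive terms of the twisted Fibonacci sequence are at least `2 / 7`

With `X n = |h (4 n)| = |h (4 n + 3)|` and `Y n = |h (4 n + 1)|`, `Y (n + 1) = |h (4 n + 2)|`, the
ratio `X n / Y n` is at least `2 / 5` for `n ≥ 1` (with equality for `n = 3`).
-/

set_option autoImplicit false

namespace Pool.Agent.Results.MP_e68cb8_nt.TwoSevenths

open Pool.Agent.R488.TM

lemma tt_odd (u : ℕ) : t (2 * u + 1) * t (2 * u) = -1 := by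
  rw [t_odd, t_even]
  linear_combination -t_sq u

lemma X_odd (u : ℕ) : X (2 * u + 1) = Y (2 * u) := by
  rw [X_succ, tt_odd]
  ring

lemma bounds (u : ℕ) : 2 * X (2 * u) ≤ 3 * Y (2 * u) ∧ X (2 * u + 1) ≤ Y (2 * u + 1) ∧
    2 * Y (2 * u + 1) ≤ 5 * X (2 * u + 1) ∧ Y (2 * u + 2) ≤ 2 * X (2 * u + 2) := by
  have h1 : 2 * X (2 * u) ≤ 3 * Y (2 * u) := by
    rcases Nat.eq_zero_or_pos u with rfl | hu
    · show 2 * X 0 ≤ 3 * Y 0
      rw [X_zero, Y_zero]; norm_num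
    · obtain ⟨v, rfl⟩ : ∃ v, u = v + 1 := ⟨u - 1, by omega⟩
      have e : 2 * (v + 1) = 2 * v + 1 + 1 := by ring
      obtain ⟨p1, p2, -, -⟩ := XY_pos (2 * v)
      rw [e, X_succ (2 * v + 1), Y_succ (2 * v + 1), X_odd, Y_succ (2 * v)]
      rcases tt_cases (2 * v + 1 + 1) (2 * v + 1) with h | h <;> rw [h] <;> omega
  obtain ⟨p1, p2, p3, -⟩ := XY_pos (2 * u)
  refine ⟨h1, ?_, ?_, ?_⟩
  · rw [X_odd, Y_succ]; omega
  · rw [X_odd, Y_succ]; omega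
  · rw [show 2 * u + 2 = 2 * u + 1 + 1 by ring, X_succ (2 * u + 1), Y_succ (2 * u + 1), X_odd,
      Y_succ (2 * u)]
    rcases tt_cases (2 * u + 1 + 1) (2 * u + 1) with h | h <;> rw [h] <;> omega

lemma ratio (m : ℕ) (hm : 1 ≤ m) : 2 * Y m ≤ 5 * X m := by
  rcases Nat.even_or_odd' m with ⟨u, rfl | rfl⟩
  · obtain ⟨v, rfl⟩ : ∃ v, u = v + 1 := ⟨u - 1, by omega⟩
    have h := (bounds v).2.2.2
    have hY := (XY_pos (2 * v + 2)).1
    rw [show 2 * (v + 1) = 2 * v + 2 by ring]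
    omega
  · exact (bounds u).2.2.1

lemma abs_t (n : ℕ) : |t n| = 1 := by
  rcases t_cases n with h | h <;> rw [h] <;> rfl

lemma abs_h (n : ℕ) : |h (4 * n)| = X n ∧ |h (4 * n + 1)| = Y n ∧ |h (4 * n + 2)| = X n + Y n ∧
    |h (4 * n + 3)| = X n := by
  obtain ⟨h0, h1, h2, h3⟩ := h_values n
  obtain ⟨p1, p2, -, -⟩ := XY_pos n
  rw [h0, h1, h2, h3, Y_succ]
  refine ⟨?_, ?_, ?_, ?_⟩
  · rw [abs_neg, abs_of_nonneg p1]
  · rw [abs_mul, abs_t, one_mul, abs_of_nonneg (by omega)]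
  · rw [abs_neg, abs_of_nonneg (by omega)]
  · rw [abs_neg, abs_mul, abs_t, one_mul, abs_of_nonneg p1]

/-- `|h n| ≥ (2 / 7) |h (n - 1)|` for all `n ≥ 4`. -/
theorem result : ∀ n : ℕ, 4 ≤ n → (2 / 7 : ℚ) * |(h (n - 1) : ℚ)| ≤ |(h n : ℚ)| := by
  intro n hn
  have key : 2 * |h (n - 1)| ≤ 7 * |h n| := by
    obtain ⟨m, r, hr, rfl⟩ : ∃ m r, r < 4 ∧ n = 4 * m + r :=
      ⟨n / 4, n % 4, Nat.mod_lt _ (by norm_num), (Nat.div_add_mod n 4).symm⟩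
    obtain ⟨h0, h1, h2, h3⟩ := abs_h m
    obtain ⟨p1, p2, p3, -⟩ := XY_pos m
    have hr' : r = 0 ∨ r = 1 ∨ r = 2 ∨ r = 3 := by omega
    rcases hr' with rfl | rfl | rfl | rfl
    · obtain ⟨q, rfl⟩ : ∃ q, m = q + 1 := ⟨m - 1, by omega⟩
      have e : 4 * (q + 1) + 0 - 1 = 4 * q + 3 := by omega
      obtain ⟨q1, q2, q3, -⟩ := XY_pos q
      rw [e, show 4 * (q + 1) + 0 = 4 * (q + 1) from rfl, h0, (abs_h q).2.2.2, X_succ]
      rcases tt_cases (q + 1) q with h | h <;> rw [h] <;> omega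
    · rw [Nat.add_sub_cancel, h0, h1]; omega
    · rw [show 4 * m + 2 - 1 = 4 * m + 1 by omega, h1, h2]; omega
    · have := ratio m (by omega)
      rw [show 4 * m + 3 - 1 = 4 * m + 2 by omega, h2, h3]; omega
  have key' : (2 : ℚ) * |(h (n - 1) : ℚ)| ≤ 7 * |(h n : ℚ)| := by exact_mod_cast key
  linarith

end Pool.Agent.Results.MP_e68cb8_nt.TwoSevenths
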